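import Mathlib

/-!
# Dominating sets, domatic number and fractional domatic number

Definitions used by the hand-ins for MP_64dcad_co, with a few basic facts.
-/

set_option autoImplicit false

namespace Pool.Agent.helper42.Fdom

universe u

variable {V : Type u}

/-- `D` is a dominating set of `G`: every vertex outside `D` has a neighbour in `D`. -/
def Dominating (G : SimpleGraph V) (D : Set V) : Prop :=
  ∀ v, v ∉ D → ∃ u ∈ D, G.Adj v u

/-- `maxLoad F` is the largest number of members of the family `F` (indexed by `Fin n`, so with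
repetitions allowed) that contain a common vertex. -/
noncomputable def maxLoad {n : ℕ} (F : Fin n → Set V) : ℕ :=
  ⨆ v : V, {i : Fin n | v ∈ F i}.ncard

/-- `IsFDOM G q`: the fractional domatic number of `G` is `q`, that is, `q` is the greatest value
of `n / maxLoad F` over all nonempty families `F` of `n` dominating sets of `G`. -/
def IsFDOM (G : SimpleGraph V) (q : ℚ) : Prop :=
  IsGreatest {x : ℚ | ∃ (n : ℕ) (F : Fin n → Set V),
    0 < n ∧ (∀ i, Dominating G (F i)) ∧ x = (n : ℚ) / (maxLoad F : ℚ)} q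

/-- `IsDom G k`: the domatic number of `G` is `k`, the largest number of pairwise disjoint
dominating sets. -/
def IsDom (G : SimpleGraph V) (k : ℕ) : Prop :=
  IsGreatest {n : ℕ | ∃ F : Fin n → Set V,
    (∀ i, Dominating G (F i)) ∧ ∀ i j, i ≠ j → Disjoint (F i) (F j)} k

/-- `IsMinDegree G d`: the least number of neighbours of a vertex of `G` is `d`. -/
def IsMinDegree (G : SimpleGraph V) (d : ℕ) : Prop :=
  IsLeast {x : ℕ | ∃ v : V, x = (G.neighborSet v).ncard} d

/-- `FracColorable H k`: the fractional chromatic number of `H` is at most `k`: some nonempty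
family of `n` independent sets contains every vertex at least `n / k` times. -/
def FracColorable (H : SimpleGraph V) (k : ℕ) : Prop :=
  ∃ (n : ℕ) (F : Fin n → Set V), 0 < n ∧
    (∀ i, ∀ u ∈ F i, ∀ v ∈ F i, ¬ H.Adj u v) ∧
    ∀ v, n ≤ k * {i : Fin n | v ∈ F i}.ncard

section Basic

open Classical

lemma load_eq {n : ℕ} (F : Fin n → Set V) (v : V) :
    {i : Fin n | v ∈ F i}.ncard = (Finset.univ.filter fun i => v ∈ F i).card := by
  rw [Set.ncard_eq_toFinset_card']
  congr 1
  ext i
  simp

lemma load_le_maxLoad {n : ℕ} (F : Fin n → Set V) (v : V) :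
    {i : Fin n | v ∈ F i}.ncard ≤ maxLoad F := by
  unfold maxLoad
  refine le_ciSup (f := fun v : V => {i : Fin n | v ∈ F i}.ncard) ?_ v
  refine ⟨n, ?_⟩
  rintro _ ⟨w, rfl⟩
  show {i : Fin n | w ∈ F i}.ncard ≤ n
  rw [load_eq]
  exact (Finset.card_le_univ _).trans (by simp)

/-- Double counting: if every member of the family meets `K`, then `n` is at most the sum of the
loads over `K`. -/
lemma card_le_sum_load {n : ℕ} (F : Fin n → Set V) (K : Finset V)
    (hK : ∀ i, ∃ y ∈ K, y ∈ F i) :
    n ≤ ∑ y ∈ K, {i : Fin n | y ∈ F i}.ncard := by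
  have h1 : ∑ y ∈ K, {i : Fin n | y ∈ F i}.ncard
      = ∑ i : Fin n, (K.filter fun y => y ∈ F i).card := by
    simp only [load_eq]
    exact Finset.sum_card_bipartiteAbove_eq_sum_card_bipartiteBelow (fun y i => y ∈ F i)
  rw [h1]
  calc n = ∑ _i : Fin n, 1 := by simp
    _ ≤ _ := by
      apply Finset.sum_le_sum
      intro i _
      obtain ⟨y, hy, hyF⟩ := hK i
      exact Finset.card_pos.mpr ⟨y, by simp [hy, hyF]⟩

/-- The equality case of the double counting. -/
lemma equality_case {n L : ℕ} (F : Fin n → Set V) (K : Finset V)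
    (hK : ∀ i, ∃ y ∈ K, y ∈ F i) (hL : ∀ y ∈ K, {i : Fin n | y ∈ F i}.ncard ≤ L)
    (hn : n = K.card * L) :
    (∀ y ∈ K, {i : Fin n | y ∈ F i}.ncard = L) ∧
      ∀ i, ∀ y ∈ K, ∀ z ∈ K, y ∈ F i → z ∈ F i → y = z := by
  have h0 := card_le_sum_load F K hK
  have h2 : ∑ y ∈ K, {i : Fin n | y ∈ F i}.ncard ≤ K.card * L := by
    calc _ ≤ ∑ _y ∈ K, L := Finset.sum_le_sum hL
      _ = K.card * L := by simp
  have h3 : ∑ y ∈ K, {i : Fin n | y ∈ F i}.ncard = ∑ _y ∈ K, L := by
    rw [Finset.sum_const, smul_eq_mul]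
    omega
  refine ⟨fun y hy => (Finset.sum_eq_sum_iff_of_le hL).mp h3 y hy, ?_⟩
  intro i y hy z hz hyi hzi
  by_contra hne
  have h1 : ∑ y ∈ K, {i : Fin n | y ∈ F i}.ncard
      = ∑ i : Fin n, (K.filter fun y => y ∈ F i).card := by
    simp only [load_eq]
    exact Finset.sum_card_bipartiteAbove_eq_sum_card_bipartiteBelow (fun y i => y ∈ F i)
  have h4 : (∑ _i : Fin n, 1) < ∑ i : Fin n, (K.filter fun y => y ∈ F i).card := by
    apply Finset.sum_lt_sum
    · intro i _
      obtain ⟨y, hy, hyF⟩ := hK i
      exact Finset.card_pos.mpr ⟨y, by simp [hy, hyF]⟩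
    · refine ⟨i, Finset.mem_univ _, ?_⟩
      exact Finset.one_lt_card.mpr ⟨y, by simp [hy, hyi], z, by simp [hz, hzi], hne⟩
  simp only [Finset.sum_const, Finset.card_univ, Fintype.card_fin, smul_eq_mul, mul_one] at h4
  omega

/-- A family indexed by a finite type with constant load gives a value of `|F| / m(F)`. -/
lemma value_of_family {ι : Type} [Fintype ι] [Nonempty V] (G : SimpleGraph V)
    (F : ι → Set V) (hF : ∀ i, Dominating G (F i)) (q c : ℕ) (hc : 0 < c) (hq : 0 < q)
    (hload : ∀ v, (Finset.univ.filter fun i => v ∈ F i).card = c)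
    (hcard : Fintype.card ι = q * c) :
    ∃ (n : ℕ) (F : Fin n → Set V),
      0 < n ∧ (∀ i, Dominating G (F i)) ∧ (q : ℚ) = (n : ℚ) / (maxLoad F : ℚ) := by
  let e := Fintype.equivFin ι
  refine ⟨Fintype.card ι, fun i => F (e.symm i), ?_, fun i => hF _, ?_⟩
  · rw [hcard]; positivity
  · have h : maxLoad (fun i => F (e.symm i)) = c := by
      unfold maxLoad
      have h1 : ∀ v : V, {i : Fin (Fintype.card ι) | v ∈ F (e.symm i)}.ncard = c := by
        intro v
        rw [load_eq (fun i => F (e.symm i)) v, ← hload v]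
        apply Finset.card_bij (fun i _ => e.symm i)
        · intro a ha
          simpa using ha
        · intro a _ b _ h
          exact e.symm.injective h
        · intro b hb
          exact ⟨e b, by simpa using hb, by simp⟩
      simp only [h1]
      exact ciSup_const
    rw [h, hcard]
    push_cast
    field_simp

end Basic

end Pool.Agent.helper42.Fdom
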